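import Pool.Agent.H73.KG.Stmts

/-!
# Project KG, module MTI: the algebraic inequality for the trace potential
-/

set_option autoImplicit false

open MeasureTheory Set Filter Topology
open scoped ContDiff

namespace Pool.Agent.H47.KG

open Pool.Agent.H73.KG

section mti

variable {ι : Type} [Fintype ι] [DecidableEq ι]

theorem mti_one_add (lam : ι → ℝ) : (1 + Matrix.diagonal lam : Matrix ι ι ℝ) =
    Matrix.diagonal (fun i => 1 + lam i) := by
  rw [← Matrix.diagonal_one, Matrix.diagonal_add]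

theorem mti_inv (lam : ι → ℝ) (h : ∀ i, 0 ≤ lam i) :
    (1 + Matrix.diagonal lam : Matrix ι ι ℝ)⁻¹ = Matrix.diagonal (fun i => (1 + lam i)⁻¹) := by
  apply Matrix.inv_eq_right_inv
  rw [mti_one_add, Matrix.diagonal_mul_diagonal, ← Matrix.diagonal_one]
  congr 1
  funext i
  exact mul_inv_cancel₀ (by linarith [h i])

theorem mti_P (lam : ι → ℝ) (h : ∀ i, 0 ≤ lam i) (k : ℕ) :
    (Matrix.diagonal lam * (1 + Matrix.diagonal lam : Matrix ι ι ℝ)⁻¹) ^ k =
      Matrix.diagonal (fun i => (lam i * (1 + lam i)⁻¹) ^ k) := by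
  rw [mti_inv lam h, Matrix.diagonal_mul_diagonal, Matrix.diagonal_pow]
  rfl

theorem mti_FP (lam : ι → ℝ) (h : ∀ i, 0 ≤ lam i) (p : ℕ) :
    FP p (Matrix.diagonal lam) = ∑ i, lam i * (lam i * (1 + lam i)⁻¹) ^ p := by
  unfold FP
  rw [mti_P lam h, Matrix.diagonal_mul_diagonal, Matrix.trace_diagonal]

theorem mti_one_smul (lam : ι → ℝ) (c : ℝ) (h : ∀ i, 0 ≤ lam i) :
    (1 + c • (1 + Matrix.diagonal lam : Matrix ι ι ℝ)⁻¹) =
      Matrix.diagonal (fun i => 1 + c * (1 + lam i)⁻¹) := by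
  rw [mti_inv lam h, ← Matrix.diagonal_smul, ← Matrix.diagonal_one, Matrix.diagonal_add]
  rfl

theorem mti_tr (x y : ι → ℝ) (H : Matrix ι ι ℝ) :
    (Matrix.diagonal x * H * Matrix.diagonal y * H).trace = ∑ i, ∑ j, x i * H i j * y j * H j i := by
  unfold Matrix.trace
  apply Finset.sum_congr rfl
  intro i _
  rw [Matrix.diag_apply, Matrix.mul_apply]
  apply Finset.sum_congr rfl
  intro j _
  rw [Matrix.mul_diagonal, Matrix.diagonal_mul]

theorem mti_QQ (lam : ι → ℝ) (h : ∀ i, 0 ≤ lam i) (p : ℕ) (H : Matrix ι ι ℝ) :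
    QQ p (Matrix.diagonal lam) H =
      (∑ a ∈ Finset.range p, ∑ i, ∑ j, ((lam i * (1 + lam i)⁻¹) ^ a * (1 + lam i)⁻¹) * H i j *
        ((1 + lam j)⁻¹ * (lam j * (1 + lam j)⁻¹) ^ (p - 1 - a) * (1 + p * (1 + lam j)⁻¹)) * H j i) -
      p * ∑ i, ∑ j, ((lam i * (1 + lam i)⁻¹) ^ p * (1 + lam i)⁻¹) * H i j * (1 + lam j)⁻¹ * H j i := by
  unfold QQ
  congr 1
  · apply Finset.sum_congr rfl
    intro a _
    rw [← mti_tr, mti_P lam h, mti_P lam h, mti_one_smul lam p h, mti_inv lam h,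
      Matrix.diagonal_mul_diagonal]
    congr 1
    simp only [Matrix.mul_assoc]
    rw [← Matrix.mul_assoc (Matrix.diagonal fun i => (1 + lam i)⁻¹) (Matrix.diagonal _),
      Matrix.diagonal_mul_diagonal, ← Matrix.mul_assoc (Matrix.diagonal _) (Matrix.diagonal _),
      Matrix.diagonal_mul_diagonal]
  · rw [← mti_tr, mti_P lam h, mti_inv lam h, Matrix.diagonal_mul_diagonal]

end mti

theorem mti_aux_D (l : ℝ) (h : 0 ≤ l) : 0 < max l (1 / 2) ∧ (1 + l)⁻¹ * max l (1 / 2) ≤ 1 := by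
  have h1 : 0 < max l (1 / 2) := lt_max_of_lt_right (by norm_num)
  refine ⟨h1, ?_⟩
  rw [inv_mul_le_iff₀ (by linarith)]
  rcases max_cases l (1 / 2) with ⟨h2, _⟩ | ⟨h2, _⟩ <;> rw [h2] <;> linarith

theorem mti_rho_mono {a b : ℝ} (ha : 0 ≤ a) (hab : a ≤ b) :
    a * (1 + a)⁻¹ ≤ b * (1 + b)⁻¹ := by
  rw [← div_eq_mul_inv, ← div_eq_mul_inv, div_le_div_iff₀ (by linarith) (by linarith)]
  nlinarith

theorem mti_S (l : ℝ) (h : 0 ≤ l) (p : ℕ) (hp : 1 ≤ p) :
    (l * (1 + l)⁻¹) ^ (p - 1) * max l (1 / 2) ≤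
      3 * (l * (l * (1 + l)⁻¹) ^ p + (1 / 3) ^ p) := by
  obtain ⟨q, rfl⟩ : ∃ q, p = q + 1 := ⟨p - 1, by omega⟩
  simp only [Nat.add_sub_cancel]
  have hr0 : 0 ≤ l * (1 + l)⁻¹ := mul_nonneg h (inv_nonneg.mpr (by linarith))
  rcases le_total (1 / 2) l with h1 | h1
  · rw [max_eq_left h1, pow_succ (l * (1 + l)⁻¹)]
    have h3 : 1 / 3 ≤ l * (1 + l)⁻¹ := by
      have := mti_rho_mono (a := 1 / 2) (b := l) (by norm_num) h1
      norm_num at this ⊢
      exact this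
    have h4 : 0 ≤ (l * (1 + l)⁻¹) ^ q * l := mul_nonneg (pow_nonneg hr0 _) h
    have h5 : (0:ℝ) ≤ (1 / 3) ^ (q + 1) := by positivity
    nlinarith [mul_le_mul_of_nonneg_left h3 h4]
  · rw [max_eq_right h1]
    have h3 : l * (1 + l)⁻¹ ≤ 1 / 3 := by
      have := mti_rho_mono (a := l) (b := 1 / 2) h h1
      norm_num at this ⊢
      exact this
    have h4 : (l * (1 + l)⁻¹) ^ q ≤ (1 / 3) ^ q := pow_le_pow_left₀ hr0 h3 q
    have h5 : 0 ≤ l * (l * (1 + l)⁻¹) ^ (q + 1) := mul_nonneg h (pow_nonneg hr0 _)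
    have h6 : (0:ℝ) ≤ (1 / 3) ^ q := by positivity
    rw [pow_succ (1 / 3 : ℝ)]
    linarith

theorem mti_max (x y z : ℝ) (hx : 0 ≤ x) (hy : 0 ≤ y) (hz : 0 ≤ z) (q : ℕ) :
    (max (x * (1 + x)⁻¹) (y * (1 + y)⁻¹)) ^ q * max z (1 / 2) ≤
      (x * (1 + x)⁻¹) ^ q * max x (1 / 2) + (y * (1 + y)⁻¹) ^ q * max y (1 / 2) +
        (z * (1 + z)⁻¹) ^ q * max z (1 / 2) := by
  have hx0 : 0 ≤ x * (1 + x)⁻¹ := mul_nonneg hx (inv_nonneg.mpr (by linarith))
  have hy0 : 0 ≤ y * (1 + y)⁻¹ := mul_nonneg hy (inv_nonneg.mpr (by linarith))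
  have hz0 : 0 ≤ z * (1 + z)⁻¹ := mul_nonneg hz (inv_nonneg.mpr (by linarith))
  have Dx : 0 < max x (1 / 2) := (mti_aux_D x hx).1
  have Dy : 0 < max y (1 / 2) := (mti_aux_D y hy).1
  have Dz : 0 < max z (1 / 2) := (mti_aux_D z hz).1
  have e1 : 0 ≤ (x * (1 + x)⁻¹) ^ q * max x (1 / 2) := mul_nonneg (pow_nonneg hx0 _) Dx.le
  have e2 : 0 ≤ (y * (1 + y)⁻¹) ^ q * max y (1 / 2) := mul_nonneg (pow_nonneg hy0 _) Dy.le
  have e3 : 0 ≤ (z * (1 + z)⁻¹) ^ q * max z (1 / 2) := mul_nonneg (pow_nonneg hz0 _) Dz.le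
  rcases le_total x y with h | h
  · rw [max_eq_right (mti_rho_mono hx h)]
    rcases le_total y z with h2 | h2
    · have : (y * (1 + y)⁻¹) ^ q ≤ (z * (1 + z)⁻¹) ^ q := pow_le_pow_left₀ hy0 (mti_rho_mono hy h2) q
      have := mul_le_mul_of_nonneg_right this Dz.le
      linarith
    · have : max z (1 / 2) ≤ max y (1 / 2) := max_le_max h2 le_rfl
      have := mul_le_mul_of_nonneg_left this (pow_nonneg hy0 q)
      linarith
  · rw [max_eq_left (mti_rho_mono hy h)]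
    rcases le_total x z with h2 | h2
    · have : (x * (1 + x)⁻¹) ^ q ≤ (z * (1 + z)⁻¹) ^ q := pow_le_pow_left₀ hx0 (mti_rho_mono hx h2) q
      have := mul_le_mul_of_nonneg_right this Dz.le
      linarith
    · have : max z (1 / 2) ≤ max x (1 / 2) := max_le_max h2 le_rfl
      have := mul_le_mul_of_nonneg_left this (pow_nonneg hx0 q)
      linarith

theorem mti_thm : MTIStmt := by
  intro ι _ _ lam T K p hlam hp hsym hK
  -- abbreviations
  set rr : ι → ℝ := fun i => (1 + lam i)⁻¹ with hrr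
  set ρ : ι → ℝ := fun i => lam i * (1 + lam i)⁻¹ with hρ
  set Dm : ι → ℝ := fun i => max (lam i) (1 / 2) with hDm
  have r0 : ∀ i, 0 ≤ rr i := fun i => inv_nonneg.mpr (by linarith [hlam i])
  have r1 : ∀ i, rr i ≤ 1 := fun i => inv_le_one_of_one_le₀ (by linarith [hlam i])
  have ρ0 : ∀ i, 0 ≤ ρ i := fun i => mul_nonneg (hlam i) (r0 i)
  have D0 : ∀ i, 0 < Dm i := fun i => (mti_aux_D _ (hlam i)).1
  have rD : ∀ i, rr i * Dm i ≤ 1 := fun i => (mti_aux_D _ (hlam i)).2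
  set w : ι → ι → ι → ℝ := fun i j k => (T i j k) ^ 2 / (Dm i * Dm j * Dm k) with hw
  have w0 : ∀ i j k, 0 ≤ w i j k := fun i j k =>
    div_nonneg (sq_nonneg _) (mul_nonneg (mul_nonneg (D0 i).le (D0 j).le) (D0 k).le)
  have ws1 : ∀ i j k, w i j k = w j i k := by
    intro i j k
    simp only [hw]
    rw [(hsym i j k).1, mul_comm (Dm i) (Dm j)]
  have ws2 : ∀ i j k, w i j k = w i k j := by
    intro i j k
    simp only [hw]
    rw [(hsym i j k).2, mul_assoc, mul_comm (Dm j) (Dm k), ← mul_assoc]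
  set S : ι → ℝ := fun i => (ρ i) ^ (p - 1) * Dm i with hS
  have S0 : ∀ i, 0 ≤ S i := fun i => mul_nonneg (pow_nonneg (ρ0 i) _) (D0 i).le
  -- first term
  have hfirst : 0 ≤ (dFP p (Matrix.diagonal lam) * (Matrix.diagonal lam) ^ 2).trace := by
    unfold dFP
    rw [mti_P lam hlam, mti_one_smul lam p hlam, Matrix.diagonal_pow, Matrix.diagonal_mul_diagonal,
      Matrix.diagonal_mul_diagonal, Matrix.trace_diagonal]
    apply Finset.sum_nonneg
    intro i _
    have h1 : 0 ≤ (lam i * (1 + lam i)⁻¹) ^ p := pow_nonneg (ρ0 i) p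
    have h2 : 0 ≤ 1 + (p:ℝ) * (1 + lam i)⁻¹ := by
      have : 0 ≤ (p:ℝ) * (1 + lam i)⁻¹ := mul_nonneg (Nat.cast_nonneg _) (r0 i)
      linarith
    have h3 : 0 ≤ (lam ^ 2) i := by
      rw [Pi.pow_apply]; exact sq_nonneg _
    exact mul_nonneg (mul_nonneg h1 h2) h3
  -- the bound for one k
  have hQ : ∀ k, QQ p (Matrix.diagonal lam) (Matrix.of fun i j => T k i j) ≤
      ∑ i, ∑ j, (p:ℝ) * (p + 1) * (w k i j * (S i + S j + S k)) := by
    intro k
    rw [mti_QQ lam hlam]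
    have hneg : 0 ≤ (p:ℝ) * ∑ i, ∑ j, ((lam i * (1 + lam i)⁻¹) ^ p * (1 + lam i)⁻¹) *
        (Matrix.of fun i j => T k i j) i j * (1 + lam j)⁻¹ * (Matrix.of fun i j => T k i j) j i := by
      apply mul_nonneg (Nat.cast_nonneg _)
      apply Finset.sum_nonneg
      intro i _
      apply Finset.sum_nonneg
      intro j _
      simp only [Matrix.of_apply]
      rw [← (hsym k i j).2]
      have h1 : 0 ≤ (lam i * (1 + lam i)⁻¹) ^ p * (1 + lam i)⁻¹ := mul_nonneg (pow_nonneg (ρ0 i) p) (r0 i)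
      have : (lam i * (1 + lam i)⁻¹) ^ p * (1 + lam i)⁻¹ * T k i j * (1 + lam j)⁻¹ * T k i j =
        (lam i * (1 + lam i)⁻¹) ^ p * (1 + lam i)⁻¹ * (1 + lam j)⁻¹ * (T k i j) ^ 2 := by ring
      rw [this]
      exact mul_nonneg (mul_nonneg h1 (r0 j)) (sq_nonneg _)
    have hpos : (∑ a ∈ Finset.range p, ∑ i, ∑ j, ((lam i * (1 + lam i)⁻¹) ^ a * (1 + lam i)⁻¹) *
        (Matrix.of fun i j => T k i j) i j *
        ((1 + lam j)⁻¹ * (lam j * (1 + lam j)⁻¹) ^ (p - 1 - a) * (1 + p * (1 + lam j)⁻¹)) *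
        (Matrix.of fun i j => T k i j) j i) ≤
        ∑ a ∈ Finset.range p, ∑ i, ∑ j, ((p:ℝ) + 1) * (w k i j * (S i + S j + S k)) := by
      apply Finset.sum_le_sum
      intro a ha
      rw [Finset.mem_range] at ha
      apply Finset.sum_le_sum
      intro i _
      apply Finset.sum_le_sum
      intro j _
      simp only [Matrix.of_apply]
      rw [← (hsym k i j).2]
      have e1 : (lam i * (1 + lam i)⁻¹) ^ a * (1 + lam i)⁻¹ * T k i j *
        ((1 + lam j)⁻¹ * (lam j * (1 + lam j)⁻¹) ^ (p - 1 - a) * (1 + p * (1 + lam j)⁻¹)) * T k i j =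
        (ρ i ^ a * ρ j ^ (p - 1 - a)) * (1 + p * rr j) * ((rr i * rr j) * (T k i j) ^ 2) := by
        simp only [hρ, hrr]; ring
      rw [e1]
      have e2 : ρ i ^ a * ρ j ^ (p - 1 - a) ≤ (max (ρ i) (ρ j)) ^ (p - 1) := by
        have h1 : ρ i ^ a ≤ (max (ρ i) (ρ j)) ^ a := pow_le_pow_left₀ (ρ0 i) (le_max_left _ _) a
        have h2 : ρ j ^ (p - 1 - a) ≤ (max (ρ i) (ρ j)) ^ (p - 1 - a) :=
          pow_le_pow_left₀ (ρ0 j) (le_max_right _ _) _
        calc ρ i ^ a * ρ j ^ (p - 1 - a) ≤ (max (ρ i) (ρ j)) ^ a * (max (ρ i) (ρ j)) ^ (p - 1 - a) :=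
              mul_le_mul h1 h2 (pow_nonneg (ρ0 j) _) (pow_nonneg (le_max_of_le_left (ρ0 i)) _)
          _ = (max (ρ i) (ρ j)) ^ (p - 1) := by
              rw [← pow_add]; congr 1; omega
      have e3 : 1 + p * rr j ≤ (p:ℝ) + 1 := by
        have : (p:ℝ) * rr j ≤ p * 1 := mul_le_mul_of_nonneg_left (r1 j) (Nat.cast_nonneg _)
        linarith
      have e4 : (rr i * rr j) * (T k i j) ^ 2 ≤ w k i j * Dm k := by
        simp only [hw]
        rw [div_mul_eq_mul_div, le_div_iff₀ (mul_pos (mul_pos (D0 k) (D0 i)) (D0 j))]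
        have h1 : (rr i * Dm i) * (rr j * Dm j) ≤ 1 :=
          mul_le_one₀ (rD i) (mul_nonneg (r0 j) (D0 j).le) (rD j)
        have h2 : 0 ≤ (T k i j) ^ 2 * Dm k := mul_nonneg (sq_nonneg _) (D0 k).le
        calc rr i * rr j * T k i j ^ 2 * (Dm k * Dm i * Dm j) =
              (T k i j ^ 2 * Dm k) * ((rr i * Dm i) * (rr j * Dm j)) := by ring
          _ ≤ (T k i j ^ 2 * Dm k) * 1 := mul_le_mul_of_nonneg_left h1 h2
          _ = T k i j ^ 2 * Dm k := mul_one _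
      have e5 : (max (ρ i) (ρ j)) ^ (p - 1) * Dm k ≤ S i + S j + S k :=
        mti_max (lam i) (lam j) (lam k) (hlam i) (hlam j) (hlam k) (p - 1)
      have m0 : 0 ≤ (max (ρ i) (ρ j)) ^ (p - 1) := pow_nonneg (le_max_of_le_left (ρ0 i)) _
      have p0 : (0:ℝ) ≤ (p:ℝ) + 1 := by positivity
      calc (ρ i ^ a * ρ j ^ (p - 1 - a)) * (1 + p * rr j) * ((rr i * rr j) * (T k i j) ^ 2)
          ≤ (max (ρ i) (ρ j)) ^ (p - 1) * ((p:ℝ) + 1) * (w k i j * Dm k) := by
            apply mul_le_mul _ e4 (mul_nonneg (mul_nonneg (r0 i) (r0 j)) (sq_nonneg _))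
              (mul_nonneg m0 p0)
            apply mul_le_mul e2 e3 _ m0
            have : 0 ≤ (p:ℝ) * rr j := mul_nonneg (Nat.cast_nonneg _) (r0 j)
            linarith
        _ = ((p:ℝ) + 1) * (w k i j * ((max (ρ i) (ρ j)) ^ (p - 1) * Dm k)) := by ring
        _ ≤ ((p:ℝ) + 1) * (w k i j * (S i + S j + S k)) :=
            mul_le_mul_of_nonneg_left (mul_le_mul_of_nonneg_left e5 (w0 k i j)) p0
    rw [Finset.sum_const, Finset.card_range, nsmul_eq_mul] at hpos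
    have e6 : ∑ i, ∑ j, (p:ℝ) * (p + 1) * (w k i j * (S i + S j + S k)) =
        (p:ℝ) * ∑ i, ∑ j, ((p:ℝ) + 1) * (w k i j * (S i + S j + S k)) := by
      rw [Finset.mul_sum]
      apply Finset.sum_congr rfl
      intro i _
      rw [Finset.mul_sum]
      apply Finset.sum_congr rfl
      intro j _
      ring
    rw [e6]
    linarith
  -- sum over k
  have hsum : ∑ k, ∑ i, ∑ j, (p:ℝ) * (p + 1) * (w k i j * (S i + S j + S k)) ≤
      (p:ℝ) * (p + 1) * (3 * ∑ i, S i * K) := by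
    have e1 : ∑ k, ∑ i, ∑ j, (p:ℝ) * (p + 1) * (w k i j * (S i + S j + S k)) =
        (p:ℝ) * (p + 1) * ((∑ k, ∑ i, ∑ j, w k i j * S i) + (∑ k, ∑ i, ∑ j, w k i j * S j) +
          (∑ k, ∑ i, ∑ j, w k i j * S k)) := by
      rw [← Finset.sum_add_distrib, ← Finset.sum_add_distrib, Finset.mul_sum]
      apply Finset.sum_congr rfl
      intro k _
      rw [← Finset.sum_add_distrib, ← Finset.sum_add_distrib, Finset.mul_sum]
      apply Finset.sum_congr rfl
      intro i _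
      rw [← Finset.sum_add_distrib, ← Finset.sum_add_distrib, Finset.mul_sum]
      apply Finset.sum_congr rfl
      intro j _
      ring
    have e2 : ∑ k, ∑ i, ∑ j, w k i j * S k ≤ ∑ k, S k * K := by
      apply Finset.sum_le_sum
      intro k _
      have : ∑ i, ∑ j, w k i j * S k = S k * ∑ i, ∑ j, w k i j := by
        rw [Finset.mul_sum]
        apply Finset.sum_congr rfl
        intro i _
        rw [Finset.mul_sum]
        apply Finset.sum_congr rfl
        intro j _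
        ring
      rw [this]
      exact mul_le_mul_of_nonneg_left (hK k) (S0 k)
    have e3 : ∑ k, ∑ i, ∑ j, w k i j * S i = ∑ k, ∑ i, ∑ j, w k i j * S k := by
      rw [Finset.sum_comm]
      apply Finset.sum_congr rfl
      intro i _
      apply Finset.sum_congr rfl
      intro k _
      apply Finset.sum_congr rfl
      intro j _
      rw [ws1 k i j]
    have e4 : ∑ k, ∑ i, ∑ j, w k i j * S j = ∑ k, ∑ i, ∑ j, w k i j * S i := by
      apply Finset.sum_congr rfl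
      intro k _
      rw [Finset.sum_comm]
      apply Finset.sum_congr rfl
      intro j _
      apply Finset.sum_congr rfl
      intro i _
      rw [ws2 k i j]
    rw [e1, e4, e3]
    apply mul_le_mul_of_nonneg_left _ (by positivity)
    linarith
  have hQsum : ∑ k, QQ p (Matrix.diagonal lam) (Matrix.of fun i j => T k i j) ≤
      (p:ℝ) * (p + 1) * (3 * ∑ i, S i * K) :=
    le_trans (Finset.sum_le_sum fun k _ => hQ k) hsum
  have hfin : ∑ i, S i * K ≤ 3 * K * (FP p (Matrix.diagonal lam) + Fintype.card ι * (1 / 3) ^ p) := by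
    have K0 : ∀ i : ι, 0 ≤ K := fun i => le_trans (Finset.sum_nonneg fun j _ =>
      Finset.sum_nonneg fun k _ => w0 i j k) (hK i)
    rw [mti_FP lam hlam]
    have e1 : 3 * K * ((∑ i, lam i * (lam i * (1 + lam i)⁻¹) ^ p) + Fintype.card ι * (1 / 3) ^ p) =
        ∑ i, (3 * (lam i * (lam i * (1 + lam i)⁻¹) ^ p + (1 / 3) ^ p)) * K := by
      rw [← Finset.sum_mul, ← Finset.mul_sum, Finset.sum_add_distrib, Finset.sum_const,
        Finset.card_univ, nsmul_eq_mul]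
      ring
    rw [e1]
    apply Finset.sum_le_sum
    intro i _
    exact mul_le_mul_of_nonneg_right (mti_S (lam i) (hlam i) p hp) (K0 i)
  have p0 : (0:ℝ) ≤ (p:ℝ) * (p + 1) := by positivity
  have := mul_le_mul_of_nonneg_left hfin p0
  nlinarith [hQsum, hfirst, this]

end Pool.Agent.H47.KG
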