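import Pool.Agent.H73.KG.Stmts

/-!
# Project KG, module TRQ: bound for the trace integrals of the channel
-/

set_option autoImplicit false

open MeasureTheory Set Filter Topology
open scoped ContDiff

namespace Pool.Agent.H47.KG

open Pool.Agent.H84 Pool.Agent.H84.Sym Pool.Agent.H84.Sym.P2x Pool.Agent.H19.KL
open Pool.Agent.H73.KG

/-! ## numbers -/

theorem trq_pow4 (J : ℕ) : ((J:ℝ) + 1) ^ 4 ≤ 41 * 2 ^ J := by
  have key : ∀ J : ℕ, (J + 1) ^ 4 ≤ 41 * 2 ^ J := by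
    intro J
    by_cases h : J < 5
    · interval_cases J <;> norm_num
    · push Not at h
      induction J, h using Nat.le_induction with
      | base => norm_num
      | succ n hn ih =>
        have h1 : (n + 1 + 1) ^ 4 ≤ 2 * (n + 1) ^ 4 := by
          obtain ⟨k, rfl⟩ : ∃ k, n = k + 5 := ⟨n - 5, by omega⟩
          ring_nf
          nlinarith [sq_nonneg k, Nat.zero_le (k ^ 3), Nat.zero_le (k ^ 4), Nat.zero_le k]
        calc (n + 1 + 1) ^ 4 ≤ 2 * (n + 1) ^ 4 := h1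
          _ ≤ 2 * (41 * 2 ^ n) := by omega
          _ = 41 * 2 ^ (n + 1) := by rw [pow_succ]; ring
  exact_mod_cast key J

/-- the exponent -/
noncomputable def trqM : ℝ := 36 * Real.sqrt 2 * (196 * Real.sqrt 82)

theorem trq_exp (J : ℕ) (s m : ℝ) (_ : 0 ≤ s) (hsm : s ≤ m) (hm : m ≤ 2 * (1 / 2) ^ J) :
    9 / 2 * ((14 * J + 1 : ℕ) : ℝ) * (((14 * J + 1 : ℕ) : ℝ) + 1) *
      (8 * Real.sqrt 2 * Real.sqrt s) ≤ trqM := by
  push_cast
  have h1 : Real.sqrt s ≤ Real.sqrt (2 * (1 / 2) ^ J) := Real.sqrt_le_sqrt (hsm.trans hm)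
  have h2 : ((J:ℝ) + 1) ^ 2 * Real.sqrt (2 * (1 / 2) ^ J) ≤ Real.sqrt 82 := by
    apply Real.le_sqrt_of_sq_le
    rw [mul_pow, Real.sq_sqrt (by positivity)]
    have h3 := trq_pow4 J
    have h4 : (((J:ℝ) + 1) ^ 2) ^ 2 = ((J:ℝ) + 1) ^ 4 := by ring
    rw [h4]
    have h5 : (0:ℝ) < (1 / 2) ^ J := by positivity
    calc ((J:ℝ) + 1) ^ 4 * (2 * (1 / 2) ^ J) ≤ (41 * 2 ^ J) * (2 * (1 / 2) ^ J) :=
          mul_le_mul_of_nonneg_right h3 (by positivity)
      _ = 82 * (2 * (1 / 2)) ^ J := by rw [mul_pow]; ring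
      _ = 82 := by norm_num
  have h6 : (14 * (J:ℝ) + 1) * (14 * (J:ℝ) + 1 + 1) ≤ 196 * ((J:ℝ) + 1) ^ 2 := by
    have : (0:ℝ) ≤ J := Nat.cast_nonneg _
    nlinarith
  have s0 : 0 ≤ Real.sqrt s := Real.sqrt_nonneg _
  have s2 : 0 ≤ Real.sqrt 2 := Real.sqrt_nonneg _
  unfold trqM
  calc 9 / 2 * (14 * (J:ℝ) + 1) * (14 * (J:ℝ) + 1 + 1) * (8 * Real.sqrt 2 * Real.sqrt s)
      = 36 * Real.sqrt 2 * (((14 * (J:ℝ) + 1) * (14 * (J:ℝ) + 1 + 1)) * Real.sqrt s) := by ring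
    _ ≤ 36 * Real.sqrt 2 * ((196 * ((J:ℝ) + 1) ^ 2) * Real.sqrt (2 * (1 / 2) ^ J)) := by
        apply mul_le_mul_of_nonneg_left _ (by positivity)
        exact mul_le_mul h6 h1 s0 (by positivity)
    _ = 36 * Real.sqrt 2 * (196 * (((J:ℝ) + 1) ^ 2 * Real.sqrt (2 * (1 / 2) ^ J))) := by ring
    _ ≤ 36 * Real.sqrt 2 * (196 * Real.sqrt 82) := by
        apply mul_le_mul_of_nonneg_left _ (by positivity)
        exact mul_le_mul_of_nonneg_left h2 (by norm_num)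

theorem trq_num (J : ℕ) (m t d Sg : ℝ) (hm : (1 / 2) ^ J ≤ m) (hm2 : m ≤ 2 * (1 / 2) ^ J)
    (ht : 0 < t) (htm : t ≤ m) (hd : 0 ≤ d) (hS : 0 ≤ Sg) :
    (1 / m) ^ 2 * (36 / 35) ^ (14 * J + 1) * (7 * (7 / 8) ^ (14 * J + 1) * d + (1 / t) / 4 * Sg +
      d * (1 / 3) ^ (14 * J + 1)) ≤ 8 * d + 3 * (Sg / t ^ 4) := by
  have m0 : 0 < m := lt_of_lt_of_le ht htm
  have hj : (0:ℝ) < (1 / 2) ^ J := by positivity
  have h1 : (1 / m) ^ 2 ≤ 4 ^ J := by
    have : 1 / m ≤ 2 ^ J := by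
      rw [div_le_iff₀ m0]
      calc (1:ℝ) = 2 ^ J * (1 / 2) ^ J := by rw [← mul_pow]; norm_num
        _ ≤ 2 ^ J * m := mul_le_mul_of_nonneg_left hm (by positivity)
    calc (1 / m) ^ 2 ≤ (2 ^ J) ^ 2 := pow_le_pow_left₀ (by positivity) this 2
      _ = 4 ^ J := by rw [← pow_mul, mul_comm, pow_mul]; norm_num
  have h2 : (36 / 35 : ℝ) ^ (14 * J + 1) * (7 / 8) ^ (14 * J + 1) ≤ (1 / 4) ^ J * (9 / 10) := by
    rw [← mul_pow, pow_succ, pow_mul]
    have : ((36 / 35 : ℝ) * (7 / 8)) ^ 14 ≤ 1 / 4 := by norm_num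
    have h3 := pow_le_pow_left₀ (by positivity) this J
    calc (((36 / 35 : ℝ) * (7 / 8)) ^ 14) ^ J * (36 / 35 * (7 / 8)) ≤
          (1 / 4) ^ J * (36 / 35 * (7 / 8)) := mul_le_mul_of_nonneg_right h3 (by positivity)
      _ = (1 / 4) ^ J * (9 / 10) := by norm_num
  have h3 : (36 / 35 : ℝ) ^ (14 * J + 1) * (1 / 3) ^ (14 * J + 1) ≤ (1 / 4) ^ J * (12 / 35) := by
    rw [← mul_pow, pow_succ, pow_mul]
    have : ((36 / 35 : ℝ) * (1 / 3)) ^ 14 ≤ 1 / 4 := by norm_num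
    have h3 := pow_le_pow_left₀ (by positivity) this J
    calc (((36 / 35 : ℝ) * (1 / 3)) ^ 14) ^ J * (36 / 35 * (1 / 3)) ≤
          (1 / 4) ^ J * (36 / 35 * (1 / 3)) := mul_le_mul_of_nonneg_right h3 (by positivity)
      _ = (1 / 4) ^ J * (12 / 35) := by norm_num
  have h4 : (36 / 35 : ℝ) ^ (14 * J + 1) ≤ 2 ^ J * (36 / 35) := by
    rw [pow_succ, pow_mul]
    have : ((36 / 35 : ℝ)) ^ 14 ≤ 2 := by norm_num
    exact mul_le_mul_of_nonneg_right (pow_le_pow_left₀ (by positivity) this J) (by positivity)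
  have h44 : (4:ℝ) ^ J * (1 / 4) ^ J = 1 := by rw [← mul_pow]; norm_num
  have h5 : (4:ℝ) ^ J * 2 ^ J ≤ 8 / t ^ 3 := by
    have e1 : (4:ℝ) ^ J * 2 ^ J = (2 ^ J) ^ 3 := by
      rw [← mul_pow, ← pow_mul, mul_comm J 3, pow_mul]; norm_num
    have e2 : (2:ℝ) ^ J ≤ 2 / t := by
      rw [le_div_iff₀ ht]
      calc (2:ℝ) ^ J * t ≤ 2 ^ J * (2 * (1 / 2) ^ J) :=
            mul_le_mul_of_nonneg_left (htm.trans hm2) (by positivity)
        _ = 2 * (2 * (1 / 2)) ^ J := by rw [mul_pow]; ring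
        _ = 2 := by norm_num
    rw [e1]
    calc ((2:ℝ) ^ J) ^ 3 ≤ (2 / t) ^ 3 := pow_le_pow_left₀ (by positivity) e2 3
      _ = 8 / t ^ 3 := by rw [div_pow]; norm_num
  have t1 : (1 / m) ^ 2 * (36 / 35) ^ (14 * J + 1) * (7 * (7 / 8) ^ (14 * J + 1) * d) ≤
      63 / 10 * d := by
    calc (1 / m) ^ 2 * (36 / 35) ^ (14 * J + 1) * (7 * (7 / 8) ^ (14 * J + 1) * d)
        = (1 / m) ^ 2 * ((36 / 35) ^ (14 * J + 1) * (7 / 8) ^ (14 * J + 1)) * (7 * d) := by ring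
      _ ≤ 4 ^ J * ((1 / 4) ^ J * (9 / 10)) * (7 * d) := by
          apply mul_le_mul_of_nonneg_right _ (by positivity)
          exact mul_le_mul h1 h2 (by positivity) (by positivity)
      _ = (4 ^ J * (1 / 4) ^ J) * (63 / 10 * d) := by ring
      _ = 63 / 10 * d := by rw [h44, one_mul]
  have t3 : (1 / m) ^ 2 * (36 / 35) ^ (14 * J + 1) * (d * (1 / 3) ^ (14 * J + 1)) ≤
      12 / 35 * d := by
    calc (1 / m) ^ 2 * (36 / 35) ^ (14 * J + 1) * (d * (1 / 3) ^ (14 * J + 1))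
        = (1 / m) ^ 2 * ((36 / 35) ^ (14 * J + 1) * (1 / 3) ^ (14 * J + 1)) * d := by ring
      _ ≤ 4 ^ J * ((1 / 4) ^ J * (12 / 35)) * d := by
          apply mul_le_mul_of_nonneg_right _ hd
          exact mul_le_mul h1 h3 (by positivity) (by positivity)
      _ = (4 ^ J * (1 / 4) ^ J) * (12 / 35 * d) := by ring
      _ = 12 / 35 * d := by rw [h44, one_mul]
  have t2 : (1 / m) ^ 2 * (36 / 35) ^ (14 * J + 1) * ((1 / t) / 4 * Sg) ≤ 3 * (Sg / t ^ 4) := by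
    calc (1 / m) ^ 2 * (36 / 35) ^ (14 * J + 1) * ((1 / t) / 4 * Sg)
        ≤ (4 ^ J * (2 ^ J * (36 / 35))) * ((1 / t) / 4 * Sg) := by
          apply mul_le_mul_of_nonneg_right _ (by positivity)
          exact mul_le_mul h1 h4 (by positivity) (by positivity)
      _ = (4 ^ J * 2 ^ J) * (36 / 35 * ((1 / t) / 4 * Sg)) := by ring
      _ ≤ (8 / t ^ 3) * (36 / 35 * ((1 / t) / 4 * Sg)) :=
          mul_le_mul_of_nonneg_right h5 (by positivity)
      _ = 72 / 35 * (Sg / t ^ 4) := by field_simp; ring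
      _ ≤ 3 * (Sg / t ^ 4) := mul_le_mul_of_nonneg_right (by norm_num) (by positivity)
  have e : (1 / m) ^ 2 * (36 / 35) ^ (14 * J + 1) * (7 * (7 / 8) ^ (14 * J + 1) * d +
      (1 / t) / 4 * Sg + d * (1 / 3) ^ (14 * J + 1)) =
      (1 / m) ^ 2 * (36 / 35) ^ (14 * J + 1) * (7 * (7 / 8) ^ (14 * J + 1) * d) +
      (1 / m) ^ 2 * (36 / 35) ^ (14 * J + 1) * ((1 / t) / 4 * Sg) +
      (1 / m) ^ 2 * (36 / 35) ^ (14 * J + 1) * (d * (1 / 3) ^ (14 * J + 1)) := by ring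
  rw [e]
  linarith

/-! ## regularity -/

section reg

variable {E : Type} [NormedAddCommGroup E] [InnerProductSpace ℝ E]
    [FiniteDimensional ℝ E] [MeasurableSpace E] [BorelSpace E]

theorem rg_sum (h : RGCStmt E) {κ : Type} (S : Finset κ) (F : κ → ℝ → E → ℝ)
    (hF : ∀ k, RG (F k)) : RG (fun r θ => ∑ k ∈ S, F k r θ) := by
  classical
  induction S using Finset.induction_on with
  | empty =>
    simp only [Finset.sum_empty]
    exact h.1 0
  | insert a S ha ih =>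
    simp only [Finset.sum_insert ha]
    exact h.2.1 _ _ (hF a) ih

theorem trq_cube {ι : Type} [Fintype ι] [DecidableEq ι] (A : Matrix ι ι ℝ) :
    (A ^ 3).trace = ∑ i, ∑ j, ∑ k, A i k * A k j * A j i := by
  have : A ^ 3 = A * A * A := by rw [pow_succ, pow_two]
  rw [this, Matrix.trace]
  apply Finset.sum_congr rfl
  intro i _
  rw [Matrix.diag_apply, Matrix.mul_apply]
  apply Finset.sum_congr rfl
  intro j _
  rw [Matrix.mul_apply, Finset.sum_mul]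

theorem rg_cube (h : RGCStmt E) (hA : AAGStmt E) (U : E → ℝ) (t : ℝ) (hU : PP U t)
    {ι : Type} [Fintype ι] [DecidableEq ι] (b : OrthonormalBasis ι ℝ E) :
    RG (fun s θ => ((cm b (pw U s θ)) ^ 3).trace) := by
  have e : (fun (s : ℝ) (θ : E) => ((cm b (pw U s θ)) ^ 3).trace) = fun s θ =>
      ∑ i, ∑ j, ∑ k, cm b (pw U s θ) i k * cm b (pw U s θ) k j * cm b (pw U s θ) j i := by
    funext s θ
    exact trq_cube _
  rw [e]
  apply rg_sum h
  intro i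
  apply rg_sum h
  intro j
  apply rg_sum h
  intro k
  exact h.2.2.1 _ _ (h.2.2.1 _ _ (hA U t hU ι b i k).1 (hA U t hU ι b k j).1)
    (hA U t hU ι b j i).1

theorem rg_trace (h : RGCStmt E) (hA : AAGStmt E) (U : E → ℝ) (t : ℝ) (hU : PP U t)
    {ι : Type} [Fintype ι] [DecidableEq ι] (b : OrthonormalBasis ι ℝ E) :
    RG (fun s θ => (cm b (pw U s θ)).trace) := by
  have e : (fun (s : ℝ) (θ : E) => (cm b (pw U s θ)).trace) = fun s θ =>
      ∑ i, cm b (pw U s θ) i i := by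
    funext s θ
    rfl
  rw [e]
  apply rg_sum h
  intro i
  exact (hA U t hU ι b i i).1

/-- the constant of the pointwise bound -/
noncomputable def trqC : ℝ := 35 ^ 3 + 8 * Real.exp trqM

theorem trq_pt (hBAS : BASStmt E) (hPWB : PWBStmt E) (hRGC : RGCStmt E) (hBAY : BAYStmt E)
    (hAAG : AAGStmt E) (hFPB : FPBStmt E) (hFPI : FPIStmt) (hTK0 : TK0Stmt E) (hTRP : TRPStmt E)
    (U : E → ℝ) (t : ℝ) (hU : PP U t) (ht1 : t ≤ 1)
    (ι : Type) [Fintype ι] [DecidableEq ι] (b : OrthonormalBasis ι ℝ E)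
    (B : Matrix ι ι ℝ) (hB : B.IsHermitian) (hB5 : ((5:ℝ) • (1 : Matrix ι ι ℝ) - B).PosSemidef)
    (s : ℝ) (hs : 0 < s) (hs1 : s ≤ 1) :
    EX U s (fun θ => ((cm b (pw U s θ)) ^ 3).trace) ≤
      trqC * (Fintype.card ι + (∑ i, ∑ j, (cm b U i j - B i j) ^ 2) / t ^ 4) := by
  obtain ⟨⟨C0, hC0⟩, hprob⟩ := id hU
  have ht : 0 < t := hC0.pos
  obtain ⟨bas1, bas2, bas3, bas4, bas5, bas6, bas7⟩ := hBAS
  set m := max s t with hm
  have m0 : 0 < m := lt_max_of_lt_left hs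
  have m1 : m ≤ 1 := max_le hs1 ht1
  obtain ⟨n, hn1, hn2⟩ := exists_nat_pow_near_of_lt_one m0 m1 (by norm_num : (0:ℝ) < 1 / 2)
    (by norm_num)
  set J := n + 1 with hJ
  have hmJ : (1 / 2 : ℝ) ^ J ≤ m := hn1.le
  have hmJ2 : m ≤ 2 * (1 / 2) ^ J := by
    rw [hJ, pow_succ]; linarith
  set p := 14 * J + 1 with hp
  have p1 : 1 ≤ p := by omega
  have hFPRG := (hFPB U t hU ι b p p1).1
  have rg6 := hRGC.2.2.2.2.2.1
  have gF : GC (fun θ => FP p (cm b (pw U s θ))) := (rg6 _ hFPRG s hs).1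
  have gC : GC (fun θ => ((cm b (pw U s θ)) ^ 3).trace) :=
    (rg6 _ (rg_cube hRGC hAAG U t hU b) s hs).1
  have gc : ∀ c : ℝ, GC (fun _ : E => c) := fun c => (rg6 _ (hRGC.1 c) s hs).1
  obtain ⟨b1, b2, b3, b4, b5, b6, b7⟩ := hBAY U t hU s hs.le
  set K : ℝ := (1 / m) ^ 2 * (36 / 35) ^ p with hK
  have K0 : 0 ≤ K := by positivity
  have gKF : GC (fun θ => K * FP p (cm b (pw U s θ))) := by
    have : RG (fun (s : ℝ) (θ : E) => K * FP p (cm b (pw U s θ))) :=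
      hRGC.2.2.1 _ _ (hRGC.1 K) hFPRG
    exact (rg6 _ this s hs).1
  have gS : GC (fun θ => (35:ℝ) ^ 3 * Fintype.card ι + K * FP p (cm b (pw U s θ))) := by
    have : RG (fun (s : ℝ) (θ : E) => (35:ℝ) ^ 3 * Fintype.card ι + K * FP p (cm b (pw U s θ))) :=
      hRGC.2.1 _ _ (hRGC.1 _) (hRGC.2.2.1 _ _ (hRGC.1 K) hFPRG)
    exact (rg6 _ this s hs).1
  -- the pointwise bound
  have pt : ∀ θ : E, ((cm b (pw U s θ)) ^ 3).trace ≤
      (35:ℝ) ^ 3 * Fintype.card ι + K * FP p (cm b (pw U s θ)) := by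
    intro θ
    have hPP : PP (pw U s θ) (t + s) := (hPWB U t hU).1 s θ hs.le
    have hpsd := (bas6 _ _ hPP ι b).1
    have hcov : CovLe (pw U s θ) (1 / m) := by
      intro w
      refine (bas5 _ _ hPP w).trans ?_
      apply mul_le_mul_of_nonneg_right _ (sq_nonneg _)
      apply one_div_le_one_div_of_le m0
      exact max_le (by linarith) (by linarith)
    have hle := (bas6 _ _ hPP ι b).2 _ hcov
    exact (hFPI ι (cm b (pw U s θ)) hpsd p p1).2.2.2.1 (1 / m) (by positivity) hle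
  have st1 : EX U s (fun θ => ((cm b (pw U s θ)) ^ 3).trace) ≤
      (35:ℝ) ^ 3 * Fintype.card ι + K * EX U s (fun θ => FP p (cm b (pw U s θ))) := by
    have := b5 _ _ gC gS pt
    rw [b2 (fun _ => (35:ℝ) ^ 3 * Fintype.card ι) (fun θ => K * FP p (cm b (pw U s θ)))
      (gc _) gKF, b4, b3] at this
    exact this
  -- the trace potential
  have hTRPs : EX U s (fun θ => FP p (cm b (pw U s θ))) + Fintype.card ι * (1 / 3) ^ p ≤
      (FP p (cm b U) + Fintype.card ι * (1 / 3) ^ p) *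
        Real.exp (9 / 2 * p * (p + 1) * (8 * Real.sqrt 2 * Real.sqrt s)) := by
    refine hTRP U t hU ι b 1 (fun s => 8 * Real.sqrt 2 * Real.sqrt s)
      (fun s => 4 / Real.sqrt (s / 2)) one_pos ?_ ?_ ?_ p p1 s ⟨hs.le, hs1⟩
    · exact (continuous_const.mul Real.continuous_sqrt).continuousOn
    · simp
    · intro r hr
      have r0 : 0 < r := hr.1
      refine ⟨?_, by positivity, hTK0 (r / 2) (by linarith)⟩
      have h1 := (Real.hasDerivAt_sqrt r0.ne').const_mul (8 * Real.sqrt 2)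
      have h2 : 8 * Real.sqrt 2 * (1 / (2 * Real.sqrt r)) = 4 / Real.sqrt (r / 2) := by
        rw [Real.sqrt_div' _ (by norm_num : (0:ℝ) ≤ 2)]
        have : Real.sqrt r ≠ 0 := (Real.sqrt_pos.mpr r0).ne'
        have : Real.sqrt 2 ≠ 0 := (Real.sqrt_pos.mpr (by norm_num)).ne'
        field_simp
        norm_num
      rw [h2] at h1
      exact h1
  have hpsdU := (bas6 _ _ hU ι b).1
  have hleU := (bas6 _ _ hU ι b).2 _ (bas5 _ _ hU)
  have hFPU := (hFPI ι (cm b U) hpsdU p p1).2.1 (1 / t) B (by positivity) hleU hB hB5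
  have hexp : Real.exp (9 / 2 * p * (p + 1) * (8 * Real.sqrt 2 * Real.sqrt s)) ≤
      Real.exp trqM :=
    Real.exp_le_exp.mpr (trq_exp J s m hs.le (le_max_left _ _) hmJ2)
  set d : ℝ := (Fintype.card ι : ℝ) with hd
  have d0 : 0 ≤ d := Nat.cast_nonneg _
  set Sg : ℝ := ∑ i, ∑ j, (cm b U i j - B i j) ^ 2 with hSg
  have Sg0 : 0 ≤ Sg := Finset.sum_nonneg fun i _ => Finset.sum_nonneg fun j _ => sq_nonneg _
  have hFP0 : 0 ≤ FP p (cm b U) := (hFPI ι (cm b U) hpsdU p p1).1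
  have st2 : EX U s (fun θ => FP p (cm b (pw U s θ))) ≤
      (7 * (7 / 8) ^ p * d + (1 / t) / 4 * Sg + d * (1 / 3) ^ p) * Real.exp trqM := by
    have q0 : 0 ≤ d * (1 / 3) ^ p := by positivity
    have q1 : (FP p (cm b U) + d * (1 / 3) ^ p) *
        Real.exp (9 / 2 * p * (p + 1) * (8 * Real.sqrt 2 * Real.sqrt s)) ≤
        (7 * (7 / 8) ^ p * d + (1 / t) / 4 * Sg + d * (1 / 3) ^ p) * Real.exp trqM := by
      apply mul_le_mul _ hexp (Real.exp_nonneg _)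
      · positivity
      · linarith
    linarith
  have e0 : 0 ≤ Real.exp trqM := Real.exp_nonneg _
  have e1 : 0 ≤ Sg / t ^ 4 := by positivity
  calc EX U s (fun θ => ((cm b (pw U s θ)) ^ 3).trace)
      ≤ (35:ℝ) ^ 3 * d + K * EX U s (fun θ => FP p (cm b (pw U s θ))) := st1
    _ ≤ (35:ℝ) ^ 3 * d + K * ((7 * (7 / 8) ^ p * d + (1 / t) / 4 * Sg + d * (1 / 3) ^ p) *
          Real.exp trqM) := by
        have := mul_le_mul_of_nonneg_left st2 K0
        linarith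
    _ = (35:ℝ) ^ 3 * d + (K * (7 * (7 / 8) ^ p * d + (1 / t) / 4 * Sg + d * (1 / 3) ^ p)) *
          Real.exp trqM := by ring
    _ ≤ (35:ℝ) ^ 3 * d + (8 * d + 3 * (Sg / t ^ 4)) * Real.exp trqM := by
        have := trq_num J m t d Sg hmJ hmJ2 ht (le_max_right _ _) d0 Sg0
        have := mul_le_mul_of_nonneg_right this e0
        linarith
    _ ≤ trqC * (d + Sg / t ^ 4) := by
        unfold trqC
        have := mul_nonneg e0 e1
        have := mul_nonneg e0 d0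
        nlinarith

theorem trq_core (hBAS : BASStmt E) (hPWB : PWBStmt E) (hRGC : RGCStmt E) (hBAY : BAYStmt E)
    (hDYN : DYNStmt E) (hAAG : AAGStmt E) (hFPB : FPBStmt E) (hFPI : FPIStmt) (hTK0 : TK0Stmt E)
    (hTRP : TRPStmt E)
    (U : E → ℝ) (t : ℝ) (hU : PP U t) (ht1 : t ≤ 1)
    (ι : Type) [Fintype ι] [DecidableEq ι] (b : OrthonormalBasis ι ℝ E)
    (B : Matrix ι ι ℝ) (hB : B.IsHermitian) (hB5 : ((5:ℝ) • (1 : Matrix ι ι ℝ) - B).PosSemidef) :
    IntervalIntegrable (fun s => s ^ (-(1:ℝ) / 2) *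
      EX U s (fun θ => ((cm b (pw U s θ)) ^ 3).trace)) volume 0 1 ∧
    EX U 1 (fun θ => (cm b (pw U 1 θ)).trace) + ∫ s in (0:ℝ)..1, s ^ (-(1:ℝ) / 2) *
      EX U s (fun θ => ((cm b (pw U s θ)) ^ 3).trace) ≤
    (1 + 2 * trqC) * (Fintype.card ι + (∑ i, ∑ j, (cm b U i j - B i j) ^ 2) / t ^ 4) := by
  obtain ⟨⟨C0, hC0⟩, hprob⟩ := id hU
  have ht : 0 < t := hC0.pos
  have hcont : ContinuousOn (fun s => EX U s (fun θ => ((cm b (pw U s θ)) ^ 3).trace)) (Ici 0) :=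
    (hDYN U t hU _ (rg_cube hRGC hAAG U t hU b)).2.1
  have hpow : IntervalIntegrable (fun s : ℝ => s ^ (-(1:ℝ) / 2)) volume 0 1 :=
    intervalIntegral.intervalIntegrable_rpow' (by norm_num)
  have hint : IntervalIntegrable (fun s => s ^ (-(1:ℝ) / 2) *
      EX U s (fun θ => ((cm b (pw U s θ)) ^ 3).trace)) volume 0 1 := by
    apply hpow.mul_continuousOn
    apply hcont.mono
    rw [uIcc_of_le zero_le_one]
    intro x hx
    exact hx.1
  refine ⟨hint, ?_⟩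
  set d : ℝ := (Fintype.card ι : ℝ) with hd
  have d0 : 0 ≤ d := Nat.cast_nonneg _
  set Sg : ℝ := ∑ i, ∑ j, (cm b U i j - B i j) ^ 2 with hSg
  have Sg0 : 0 ≤ Sg := Finset.sum_nonneg fun i _ => Finset.sum_nonneg fun j _ => sq_nonneg _
  have e1 : 0 ≤ Sg / t ^ 4 := by positivity
  -- the trace at time one
  have h1 : EX U 1 (fun θ => (cm b (pw U 1 θ)).trace) ≤ d := by
    obtain ⟨b1, b2, b3, b4, b5, b6, b7⟩ := hBAY U t hU 1 zero_le_one
    have rg6 := hRGC.2.2.2.2.2.1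
    have g1 : GC (fun θ => (cm b (pw U 1 θ)).trace) :=
      (rg6 _ (rg_trace hRGC hAAG U t hU b) 1 one_pos).1
    have g2 : GC (fun _ : E => d) := (rg6 _ (hRGC.1 d) 1 one_pos).1
    have := b5 _ _ g1 g2 ?_
    · rwa [b4] at this
    · intro θ
      have hPP : PP (pw U 1 θ) (t + 1) := (hPWB U t hU).1 1 θ zero_le_one
      have hcov := hBAS.2.2.2.2.1 _ _ hPP
      have : (cm b (pw U 1 θ)).trace ≤ ∑ i : ι, (1:ℝ) := by
        apply Finset.sum_le_sum
        intro i _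
        rw [Matrix.diag_apply]
        have h3 := hcov (b i)
        have h4 : ‖b i‖ = 1 := b.orthonormal.1 i
        rw [h4] at h3
        have h5 : 1 / (t + 1) ≤ 1 := by
          rw [div_le_one (by linarith)]; linarith
        show cv (pw U 1 θ) (li (b i)) (li (b i)) ≤ 1
        linarith
      simpa [hd] using this
  -- the integral
  have h2 : ∫ s in (0:ℝ)..1, s ^ (-(1:ℝ) / 2) *
      EX U s (fun θ => ((cm b (pw U s θ)) ^ 3).trace) ≤
      ∫ s in (0:ℝ)..1, s ^ (-(1:ℝ) / 2) * (trqC * (d + Sg / t ^ 4)) := by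
    apply intervalIntegral.integral_mono_on zero_le_one hint (hpow.mul_const _)
    intro s hs
    rcases eq_or_lt_of_le hs.1 with h0 | h0
    · rw [← h0, Real.zero_rpow (by norm_num), zero_mul, zero_mul]
    · apply mul_le_mul_of_nonneg_left _ (Real.rpow_nonneg h0.le _)
      exact trq_pt hBAS hPWB hRGC hBAY hAAG hFPB hFPI hTK0 hTRP U t hU ht1 ι b B hB hB5 s h0 hs.2
  have h3 : ∫ s in (0:ℝ)..1, s ^ (-(1:ℝ) / 2) * (trqC * (d + Sg / t ^ 4)) =
      2 * (trqC * (d + Sg / t ^ 4)) := by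
    rw [intervalIntegral.integral_mul_const, integral_rpow (Or.inl (by norm_num))]
    norm_num
  rw [h3] at h2
  nlinarith

end reg

theorem trq_thm
    (hBAS : ∀ (E : Type) [NormedAddCommGroup E] [InnerProductSpace ℝ E] [FiniteDimensional ℝ E]
      [MeasurableSpace E] [BorelSpace E], BASStmt E)
    (hPWB : ∀ (E : Type) [NormedAddCommGroup E] [InnerProductSpace ℝ E] [FiniteDimensional ℝ E]
      [MeasurableSpace E] [BorelSpace E], PWBStmt E)
    (hRGC : ∀ (E : Type) [NormedAddCommGroup E] [InnerProductSpace ℝ E] [FiniteDimensional ℝ E]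
      [MeasurableSpace E] [BorelSpace E], RGCStmt E)
    (hBAY : ∀ (E : Type) [NormedAddCommGroup E] [InnerProductSpace ℝ E] [FiniteDimensional ℝ E]
      [MeasurableSpace E] [BorelSpace E], BAYStmt E)
    (hDYN : ∀ (E : Type) [NormedAddCommGroup E] [InnerProductSpace ℝ E] [FiniteDimensional ℝ E]
      [MeasurableSpace E] [BorelSpace E], DYNStmt E)
    (hAAG : ∀ (E : Type) [NormedAddCommGroup E] [InnerProductSpace ℝ E] [FiniteDimensional ℝ E]
      [MeasurableSpace E] [BorelSpace E], AAGStmt E)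
    (hFPB : ∀ (E : Type) [NormedAddCommGroup E] [InnerProductSpace ℝ E] [FiniteDimensional ℝ E]
      [MeasurableSpace E] [BorelSpace E], FPBStmt E)
    (hFPI : FPIStmt)
    (hTK0 : ∀ (E : Type) [NormedAddCommGroup E] [InnerProductSpace ℝ E] [FiniteDimensional ℝ E]
      [MeasurableSpace E] [BorelSpace E], TK0Stmt E)
    (hTRP : ∀ (E : Type) [NormedAddCommGroup E] [InnerProductSpace ℝ E] [FiniteDimensional ℝ E]
      [MeasurableSpace E] [BorelSpace E], TRPStmt E) :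
    TRQStmt := by
  refine ⟨1 + 2 * trqC, ?_, ?_⟩
  · unfold trqC
    have := Real.exp_nonneg trqM
    nlinarith
  · intro E _ _ _ _ _ U t hU ht1 ι _ _ b B hB hB5
    exact trq_core (hBAS E) (hPWB E) (hRGC E) (hBAY E) (hDYN E) (hAAG E) (hFPB E) hFPI (hTK0 E)
      (hTRP E) U t hU ht1 ι b B hB hB5

end Pool.Agent.H47.KG
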